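import Pool.Agent.Helper51_MT.Greedy

/-!
# MT100-GEN, module ELG, part 1: greedy elimination with a choice of rows and with a group action
-/

set_option autoImplicit false

namespace Pool.Agent.MT100G.H29

open Pool.Agent.Helper51_MT

/-- a maximal independent initial family persists: if rational relations between the `x i a` persist
for the `x' i g a`, then for one `i` the functional `Λ` kills all the rows `q i ⊗ x' i g a`. -/
theorem greedy_group {k K ι α G : Type*} [Field k] [Field K] [Algebra k K] [Fintype ι]
    [DecidableEq ι] {J : ℕ} (hJ : Fintype.card ι ^ 2 < J) (q : Fin J → ι → k) (A : Set α)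
    (x : Fin J → α → ι → K) (Γ : Set G) (e : G) (he : e ∈ Γ) (x' : Fin J → G → α → ι → K)
    (hx : ∀ i a, x' i e a = x i a) (X : ι → ι → K)
    (hnum : ∀ (n : ℕ) (hn : n ≤ J) (a : Fin n → α) (c : (Fin n → ι) → k),
      ∑ β, algebraMap k K (c β) * ∏ i, x (Fin.castLE hn i) (a i) (β i) = 0 →
      ∀ g : Fin n → G, (∀ i, g i ∈ Γ) →
        ∑ β, algebraMap k K (c β) * ∏ i, x' (Fin.castLE hn i) (g i) (a i) (β i) = 0)
    (h : ∀ i, ∀ a ∈ A, ∑ β, ∑ γ, algebraMap k K (q i β) * X β γ * x i a γ = 0) :
    ∃ i, ∀ g ∈ Γ, ∀ a ∈ A, ∑ β, ∑ γ, algebraMap k K (q i β) * X β γ * x' i g a γ = 0 := by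
  classical
  -- the first length without an independent family
  have hdep : ∃ n, ∃ hn : n ≤ J, ∀ a : Fin n → α, (∀ i, a i ∈ A) → ¬ LinearIndependent K
      (fun i : Fin n => row (q (Fin.castLE hn i)) (x (Fin.castLE hn i) (a i))) := by
    refine ⟨J, le_rfl, fun a _ hli => ?_⟩
    have h1 := hli.fintype_card_le_finrank
    rw [Module.finrank_fintype_fun_eq_card, Fintype.card_prod, Fintype.card_fin, ← sq] at h1
    omega
  obtain ⟨hn, hdn⟩ := Nat.find_spec hdep
  obtain ⟨n, hn'⟩ : ∃ n, Nat.find hdep = n := ⟨_, rfl⟩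
  have hmin : ∀ n' < n, ∀ hn : n' ≤ J, ∃ a : Fin n' → α, (∀ i, a i ∈ A) ∧ LinearIndependent K
      (fun i : Fin n' => row (q (Fin.castLE hn i)) (x (Fin.castLE hn i) (a i))) := by
    intro n' hlt hle
    by_contra hcon
    push Not at hcon
    exact Nat.find_min hdep (hn' ▸ hlt) ⟨hle, hcon⟩
  have hn2 : n ≤ J := hn' ▸ hn
  have hdn2 : ∀ a : Fin n → α, (∀ i, a i ∈ A) → ¬ LinearIndependent K
      (fun i : Fin n => row (q (Fin.castLE hn2 i)) (x (Fin.castLE hn2 i) (a i))) := by
    subst hn'
    exact hdn
  clear hdn hn hn'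
  cases n with
  | zero => exact absurd linearIndependent_empty_type (hdn2 (fun i => i.elim0) (fun i => i.elim0))
  | succ n =>
    obtain ⟨a₀, ha₀, hli⟩ := hmin n (Nat.lt_succ_self n) (by omega)
    refine ⟨Fin.castLE hn2 (Fin.last n), fun g hg b hb => ?_⟩
    -- the last row is in the span of the others
    have hspan : row (q (Fin.castLE hn2 (Fin.last n))) (x' (Fin.castLE hn2 (Fin.last n)) g b) ∈
        Submodule.span K (Set.range (fun i : Fin n =>
          row (q (Fin.castLE (by omega) i)) (x (Fin.castLE (by omega) i) (a₀ i)))) := by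
      by_contra hcon
      have h2 : LinearIndependent K (Fin.snoc (α := fun _ => ι × ι → K)
          (fun i : Fin n => row (q (Fin.castLE (by omega) i)) (x (Fin.castLE (by omega) i) (a₀ i)))
          (row (q (Fin.castLE hn2 (Fin.last n))) (x' (Fin.castLE hn2 (Fin.last n)) g b))) :=
        linearIndependent_finSnoc.2 ⟨hli, hcon⟩
      set a : Fin (n + 1) → α := Fin.snoc (α := fun _ => α) a₀ b with ha
      set gg : Fin (n + 1) → G := Fin.snoc (α := fun _ => G) (fun _ => e) g with hgg
      have h3 : (Fin.snoc (α := fun _ => ι × ι → K)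
          (fun i : Fin n => row (q (Fin.castLE (by omega) i)) (x (Fin.castLE (by omega) i) (a₀ i)))
          (row (q (Fin.castLE hn2 (Fin.last n))) (x' (Fin.castLE hn2 (Fin.last n)) g b))) =
          fun i : Fin (n + 1) => row (q (Fin.castLE hn2 i)) (x' (Fin.castLE hn2 i) (gg i) (a i)) := by
        funext i
        refine Fin.lastCases ?_ (fun i => ?_) i
        · simp only [Fin.snoc_last, ha, hgg]
        · simp only [Fin.snoc_castSucc, ha, hgg, hx]
          rfl
      rw [h3] at h2
      refine not_li_of_minors _ (fun j => ?_) h2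
      rw [det_expand (fun i => q (Fin.castLE hn2 i))
        (fun i => x' (Fin.castLE hn2 i) (gg i) (a i)) j]
      apply hnum (n + 1) hn2 a
      · rw [← det_expand (fun i => q (Fin.castLE hn2 i)) (fun i => x (Fin.castLE hn2 i) (a i)) j]
        by_contra hdet
        apply hdn2 a
        · intro i
          refine Fin.lastCases ?_ (fun i => ?_) i
          · simp only [ha, Fin.snoc_last]
            exact hb
          · simp only [ha, Fin.snoc_castSucc]
            exact ha₀ i
        · have h4 : LinearIndependent K (fun i : Fin (n + 1) => fun b : Fin (n + 1) =>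
              row (q (Fin.castLE hn2 i)) (x (Fin.castLE hn2 i) (a i)) (j b)) :=
            Matrix.linearIndependent_rows_of_det_ne_zero hdet
          exact LinearIndependent.of_comp (LinearMap.funLeft K K j) h4
      · intro i
        refine Fin.lastCases ?_ (fun i => ?_) i
        · simp only [hgg, Fin.snoc_last]
          exact hg
        · simp only [hgg, Fin.snoc_castSucc]
          exact he
    -- the functional
    let Λ : (ι × ι → K) →ₗ[K] K :=
      ∑ p : ι × ι, X p.1 p.2 • (LinearMap.proj p : (ι × ι → K) →ₗ[K] K)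
    have hΛ : ∀ w, Λ w = ∑ β, ∑ γ, X β γ * w (β, γ) := by
      intro w
      simp only [Λ, LinearMap.sum_apply, LinearMap.smul_apply, LinearMap.proj_apply, smul_eq_mul]
      rw [Fintype.sum_prod_type]
    have h4 : ∀ w ∈ Submodule.span K (Set.range (fun i : Fin n =>
        row (q (Fin.castLE (by omega : n ≤ J) i)) (x (Fin.castLE (by omega) i) (a₀ i)))),
        Λ w = 0 := by
      intro w hw
      induction hw using Submodule.span_induction with
      | mem y hy =>
        obtain ⟨i, rfl⟩ := hy
        rw [hΛ, ← h (Fin.castLE (by omega) i) (a₀ i) (ha₀ i)]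
        refine Finset.sum_congr rfl fun β _ => Finset.sum_congr rfl fun γ _ => ?_
        simp only [row]
        ring
      | zero => rw [map_zero]
      | add y z _ _ hy hz => rw [map_add, hy, hz, add_zero]
      | smul c y _ hy => rw [map_smul, hy, smul_zero]
    have h5 := h4 _ hspan
    rw [hΛ] at h5
    rw [← h5]
    refine Finset.sum_congr rfl fun β _ => Finset.sum_congr rfl fun γ _ => ?_
    simp only [row]
    ring

end Pool.Agent.MT100G.H29
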